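import Pool.Agent.Helper5.FRD.Goals

/-!
# FRD, packet STARC1
-/

set_option autoImplicit false

namespace Pool.Agent.Helper26.FRD.STARC1

open Finset
open Pool.Agent.Helper5.FRC
open Pool.Agent.Helper5.FRD

theorem t (h1 : RtailStmt) (h2 : ChainStmt) (h3 : PmfStmt) : Starc1Stmt := by
  intro V _ _ n A t C Z hF p t' hp hR hst hd0 hc2 x hx hxZ
  have hF' := hF
  obtain ⟨hn, hA, hBl, hCir, hOdd, hDis, hZ, hZe, hCZ, hAU⟩ := hF'
  have hZA : Z ⊆ A := by
    rw [hAU]
    exact subset_union_right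
  have hCA : ∀ i, C i ⊆ A := fun i => by
    rw [hAU]
    exact (subset_biUnion_of_mem C (mem_univ i)).trans subset_union_left
  have hCnZ : ∀ i, ∀ v ∈ C i, v ∉ Z := fun i v hv => disjoint_left.1 (hCZ i) hv
  have hCC : ∀ i j, i ≠ j → ∀ v ∈ C i, v ∉ C j := fun i j hij v hv =>
    disjoint_left.1 (hDis i j hij) hv
  have hCAZ : ∀ i, C i ⊆ A \ Z := fun i v hv => mem_sdiff.2 ⟨hCA i hv, hCnZ i v hv⟩
  have hdm : ∀ i, 5 ≤ dm t (C i) := fun i => hBl (C i) (hCA i) (hCir i).2.1 (hOdd i)
  have hchain : ∀ e ∈ A \ Z, t e ∉ Z → t' e = t e := fun e he =>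
    (h2 V A Z t p t' hA hZA hp.1 hR e he).2.1
  -- the vertex `u`
  obtain ⟨u, hu0, hut, hut'⟩ : ∃ u ∈ C 0, t u ∉ C 0 ∧ t' u ∈ C 0 := by
    by_contra hcon
    push Not at hcon
    have hsub : (C 0).filter (fun v => t v ∉ C 0) ⊆ (C 0).filter (fun v => t' v ∉ C 0) := by
      intro v hv
      rw [mem_filter] at hv ⊢
      exact ⟨hv.1, hcon v hv.1 hv.2⟩
    have h := card_le_card hsub
    have h5 := hdm 0
    unfold dm at h5 hd0
    omega
  have huZ : t u ∈ Z := by
    by_contra hcon
    have h := hchain u (hCAZ 0 hu0) hcon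
    rw [h] at hut'
    exact hut hut'
  -- the vertex `y`
  obtain ⟨y, hy2, hyt, hyZ⟩ : ∃ y ∈ C 2, t y ∉ C 2 ∧ t y ∉ Z := by
    by_contra hcon
    push Not at hcon
    have hsub : (C 2).filter (fun v => t v ∉ C 2) ⊆ (C 2).filter (fun v => t v ∈ Z) := by
      intro v hv
      rw [mem_filter] at hv ⊢
      exact ⟨hv.1, hcon v hv.1 hv.2⟩
    have h := card_le_card hsub
    have h5 := hdm 2
    unfold dm at h5
    omega
  have hy3 : t y ∈ C 3 := by
    have h := hchain y (hCAZ 2 hy2) hyZ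
    rcases hst 2 (by decide) y hy2 with h4 | h4
    · rw [h] at h4
      exact absurd h4 hyt
    · rwa [h] at h4
  -- the tail
  have hxA : x ∈ A := hCA 1 hx
  have htt : t (t x) = x := (hA x hxA).2.1
  obtain ⟨q, U, hUA, hHalf, hwU, e, he0, hUZ⟩ := h1 V n A Z (C 0) t p t' hA hZA hZ hZe hp hR
    (hCAZ 0) u hu0 huZ hut' (t x) hxZ (by rw [htt]; exact hCnZ 1 x hx)
    (by rw [htt]; exact hCC 1 0 (by decide) x hx)
  rw [htt] at hUZ
  obtain ⟨hq1, hq2, hq3, hq4⟩ := hHalf
  have hyA : y ∈ A := hCA 2 hy2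
  have htty : t (t y) = y := (hA y hyA).2.1
  have heU : e ∈ U := by
    have : e ∈ U \ Z := by
      rw [hUZ]
      simp
    exact (mem_sdiff.1 this).1
  have hxU : x ∈ U := by
    have : x ∈ U \ Z := by
      rw [hUZ]
      simp
    exact (mem_sdiff.1 this).1
  have hUnot : ∀ v ∈ U, v ∉ Z → v = x ∨ v = e := by
    intro v hv hvZ
    have : v ∈ U \ Z := mem_sdiff.2 ⟨hv, hvZ⟩
    rw [hUZ] at this
    simpa using this
  refine h3 V n A t C Z hF q (U ∪ {y, t y}) ?_ ⟨hq1, ?_, hq3, ?_⟩ ?_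
  · refine union_subset hUA ?_
    intro v hv
    rw [mem_insert, mem_singleton] at hv
    rcases hv with rfl | rfl
    · exact hyA
    · exact (hA y hyA).1
  · intro v hv hqv
    obtain ⟨h4, h5⟩ := hq2 v hv hqv
    exact ⟨mem_union_left _ h4, h5⟩
  · intro v hv
    rw [mem_union, mem_insert, mem_singleton] at hv
    rcases hv with hv | rfl | rfl
    · obtain ⟨h4, h5⟩ := hq4 v hv
      exact ⟨mem_union_left _ h4, fun h => mem_union_left _ (h5 h)⟩
    · exact ⟨mem_union_right _ (by simp), fun h => absurd h (hCnZ 2 v hy2)⟩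
    · exact ⟨mem_union_right _ (by rw [htty]; simp), fun h => absurd h (hCnZ 3 _ hy3)⟩
  · -- the intersections
    have key : ∀ (i : Fin 4) (z : V), z ∈ U ∪ {y, t y} → z ∈ C i →
        (∀ v ∈ C i, (v = x ∨ v = e ∨ v = y ∨ v = t y) → v = z) →
        (U ∪ {y, t y}) ∩ C i = {z} := by
      intro i z hz hzC h
      ext v
      rw [mem_inter, mem_singleton, mem_union, mem_insert, mem_singleton]
      constructor
      · rintro ⟨hv | hv | hv, hvC⟩
        · rcases hUnot v hv (hCnZ i v hvC) with h4 | h4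
          · exact h v hvC (Or.inl h4)
          · exact h v hvC (Or.inr (Or.inl h4))
        · exact h v hvC (Or.inr (Or.inr (Or.inl hv)))
        · exact h v hvC (Or.inr (Or.inr (Or.inr hv)))
      · rintro rfl
        refine ⟨?_, hzC⟩
        rw [mem_union, mem_insert, mem_singleton] at hz
        exact hz
    intro i
    fin_cases i
    · refine ⟨e, key 0 e (mem_union_left _ heU) he0 ?_, ?_⟩
      · rintro v hv (rfl | rfl | rfl | rfl)
        · exact absurd hv (hCC 1 0 (by decide) _ hx)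
        · rfl
        · exact absurd hv (hCC 2 0 (by decide) _ hy2)
        · exact absurd hv (hCC 3 0 (by decide) _ hy3)
      · intro hte
        have hte' : t e ∈ C 0 := hte
        rcases hUnot (t e) (hq4 e heU).1 (hCnZ 0 _ hte') with h4 | h4
        · rw [h4] at hte'
          exact hCC 1 0 (by decide) x hx hte'
        · exact (hA e (hCA 0 he0)).2.2 h4
    · refine ⟨x, key 1 x (mem_union_left _ hxU) hx ?_, ?_⟩
      · rintro v hv (rfl | rfl | rfl | rfl)
        · rfl
        · exact absurd hv (hCC 0 1 (by decide) _ he0)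
        · exact absurd hv (hCC 2 1 (by decide) _ hy2)
        · exact absurd hv (hCC 3 1 (by decide) _ hy3)
      · intro h
        exact hCnZ 1 _ h hxZ
    · refine ⟨y, key 2 y (mem_union_right _ (by simp)) hy2 ?_, hyt⟩
      rintro v hv (rfl | rfl | rfl | rfl)
      · exact absurd hv (hCC 1 2 (by decide) _ hx)
      · exact absurd hv (hCC 0 2 (by decide) _ he0)
      · rfl
      · exact absurd hv (hCC 3 2 (by decide) _ hy3)
    · refine ⟨t y, key 3 (t y) (mem_union_right _ (by simp)) hy3 ?_, ?_⟩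
      · rintro v hv (rfl | rfl | rfl | rfl)
        · exact absurd hv (hCC 1 3 (by decide) _ hx)
        · exact absurd hv (hCC 0 3 (by decide) _ he0)
        · exact absurd hv (hCC 2 3 (by decide) _ hy2)
        · rfl
      · rw [htty]
        exact hCC 2 3 (by decide) y hy2

end Pool.Agent.Helper26.FRD.STARC1
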